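import Pool.Agent.helper51.RMX.Spec

/-! # Row rmx:COX: the coefficients -/

set_option autoImplicit false

namespace Pool.Agent.RMX

open Pool.Agent.RB NumberField IsDedekindDomain Module
open scoped nonZeroDivisors Real Classical IsMulCommutative

theorem COX : COX_stmt := by
  intro G _ _ m l h g₀ c hG hl hc hc1 hcc y n hy hint
  haveI : Fact (Nat.Prime 2) := ⟨Nat.prime_two⟩
  have hord : orderOf g₀ = 2 ^ (h + 1) := by
    refine orderOf_eq_prime_pow (by rw [← hc]; exact hc1) ?_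
    rw [pow_succ, pow_mul, ← hc, pow_two]
    exact hcc
  have hhm : h + 1 ≤ m := by
    have h1 := orderOf_dvd_natCard g₀
    rw [hord, hG] at h1
    have h2 : Nat.Coprime (2 ^ (h + 1)) l := Nat.Coprime.pow_left _ (Nat.coprime_two_left.2 hl)
    exact (Nat.pow_dvd_pow_iff_le_right (by norm_num)).1 (h2.dvd_of_dvd_mul_right h1)
  obtain ⟨ζ, hζ, hζo⟩ : ∃ ζ : ℂˣ, IsPrimitiveRoot (ζ : ℂ) (2 ^ (h + 1)) ∧
      orderOf ζ = 2 ^ (h + 1) := by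
    have h1 := Complex.isPrimitiveRoot_exp (2 ^ (h + 1)) (by positivity)
    refine ⟨Units.mk0 _ (h1.ne_zero (by positivity)), h1, ?_⟩
    exact (IsPrimitiveRoot.eq_orderOf (IsPrimitiveRoot.coe_units_iff.1 h1)).symm
  have hodd : ∀ χ : G →* ℂˣ, χ g₀ = ζ → χ c = -1 := by
    intro χ hχ
    rw [hc, map_pow, hχ]
    apply Units.ext
    rw [Units.val_pow_eq_pow_val, Units.val_neg, Units.val_one]
    have h1 : IsPrimitiveRoot ((ζ : ℂ) ^ 2 ^ h) 2 :=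
      hζ.pow (by positivity) (by rw [pow_succ])
    exact h1.eq_neg_one_of_two_right
  set S : Finset (G →* ℂˣ) := Finset.univ.filter (fun χ : G →* ℂˣ => χ g₀ = ζ) with hS
  have hex : ∀ χ : G →* ℂˣ, ∃ d : ℕ, Odd d ∧
      (χ ∈ S → IsIntegral ℤ ((d : ℂ) * (evQ χ y / 2 ^ n))) := by
    intro χ
    by_cases hχ : χ ∈ S
    · obtain ⟨d, hd1, hd2⟩ := hint χ (hodd χ (by simpa [hS] using hχ))
      exact ⟨d, hd1, fun _ => hd2⟩
    · exact ⟨1, odd_one, fun h => absurd h hχ⟩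
  choose dd hd1 hd2 using hex
  set d : ℕ := ∏ χ ∈ S, dd χ with hd
  have hdodd : Odd d := by
    rw [hd]
    exact Finset.prod_induction _ Odd (fun _ _ => Odd.mul) odd_one fun χ _ => hd1 χ
  have hdint : ∀ χ ∈ S, IsIntegral ℤ ((d : ℂ) * (evQ χ y / 2 ^ n)) := by
    intro χ hχ
    obtain ⟨k, hk⟩ := Finset.dvd_prod_of_mem dd hχ
    have e : (d : ℂ) * (evQ χ y / 2 ^ n) =
        (k : ℂ) * ((dd χ : ℂ) * (evQ χ y / 2 ^ n)) := by
      rw [hd, hk]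
      push_cast
      ring
    rw [e]
    exact (COE_nat k).mul (hd2 χ hχ)
  refine ⟨d * l, hdodd.mul hl, fun σ => ?_⟩
  have hT : IsIntegral ℤ ((d : ℂ) / 2 ^ n *
      ∑ χ ∈ S, evQ χ y * ((χ σ)⁻¹ : ℂˣ)) := by
    rw [Finset.mul_sum]
    refine IsIntegral.sum _ fun χ hχ => ?_
    have e : (d : ℂ) / 2 ^ n * (evQ χ y * ((χ σ)⁻¹ : ℂˣ)) =
        (d : ℂ) * (evQ χ y / 2 ^ n) * ((χ σ)⁻¹ : ℂˣ) := by ring
    rw [e]
    exact (hdint χ hχ).mul (COE_root χ σ)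
  have hy' : MonoidAlgebra.single (g₀ ^ 2 ^ h) 1 * y = -y := by
    rw [← hc]
    exact hy
  have h1 := CO1 G h g₀ hord ζ hζo y hy' σ
  rw [← hS, hG] at h1
  set A : ℂ := ∑ i ∈ Finset.range (2 ^ h), ((y.coeff (σ * g₀ ^ i) : ℚ) : ℂ) * (ζ : ℂ) ^ i with hA
  set T : ℂ := ∑ χ ∈ S, evQ χ y * ((χ σ)⁻¹ : ℂˣ) with hTdef
  -- `d l 2^m A / 2^(h+n)` is integral
  have h2 : IsIntegral ℤ (((d * l : ℕ) : ℂ) * 2 ^ m / 2 ^ (h + n) * A) := by
    have e : ((d * l : ℕ) : ℂ) * 2 ^ m / 2 ^ (h + n) * A = (d : ℂ) / 2 ^ n * T := by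
      have h3 : (2 : ℂ) ^ h * T = 2 ^ m * l * A := by
        push_cast at h1
        have h4 : (2 : ℂ) * (2 ^ h * T) = 2 * (2 ^ m * l * A) := by
          rw [pow_succ] at h1
          linear_combination h1
        exact mul_left_cancel₀ two_ne_zero h4
      have h5 : (2 : ℂ) ^ h ≠ 0 := pow_ne_zero _ two_ne_zero
      have h6 : (2 : ℂ) ^ n ≠ 0 := pow_ne_zero _ two_ne_zero
      push_cast
      rw [pow_add]
      field_simp
      linear_combination (-(d : ℂ)) * h3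
    rw [e]
    exact hT
  obtain ⟨k, hk⟩ : ∃ k : ℕ, (2 : ℂ) ^ (m - (h + n)) = 2 ^ k * (2 ^ m / 2 ^ (h + n)) := by
    have h6 : (2 : ℂ) ^ (h + n) ≠ 0 := pow_ne_zero _ two_ne_zero
    rcases le_total (h + n) m with h7 | h7
    · refine ⟨0, ?_⟩
      rw [pow_zero, one_mul, eq_div_iff h6, ← pow_add, Nat.sub_add_cancel h7]
    · refine ⟨h + n - m, ?_⟩
      rw [Nat.sub_eq_zero_of_le h7, pow_zero, mul_div_assoc', eq_comm, div_eq_iff h6, one_mul,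
        ← pow_add, Nat.sub_add_cancel h7]
  have h8 : IsIntegral ℤ (∑ i ∈ Finset.range (2 ^ h),
      (((((d * l : ℕ) : ℚ) * 2 ^ (m - (h + n)) * y.coeff (σ * g₀ ^ i) : ℚ)) : ℂ) * (ζ : ℂ) ^ i) := by
    have e : (∑ i ∈ Finset.range (2 ^ h),
        (((((d * l : ℕ) : ℚ) * 2 ^ (m - (h + n)) * y.coeff (σ * g₀ ^ i) : ℚ)) : ℂ) * (ζ : ℂ) ^ i) =
        2 ^ k * (((d * l : ℕ) : ℂ) * 2 ^ m / 2 ^ (h + n) * A) := by
      have e2 : ∀ i ∈ Finset.range (2 ^ h),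
          (((((d * l : ℕ) : ℚ) * 2 ^ (m - (h + n)) * y.coeff (σ * g₀ ^ i) : ℚ)) : ℂ) * (ζ : ℂ) ^ i =
          (((d * l : ℕ) : ℂ) * 2 ^ (m - (h + n))) *
            (((y.coeff (σ * g₀ ^ i) : ℚ) : ℂ) * (ζ : ℂ) ^ i) := by
        intro i _
        push_cast
        ring
      rw [Finset.sum_congr rfl e2, ← Finset.mul_sum, ← hA, hk]
      ring
    rw [e]
    exact (COE_two k).mul h2
  obtain ⟨z, hz⟩ := CO2 h (ζ : ℂ) hζ
    (fun i => ((d * l : ℕ) : ℚ) * 2 ^ (m - (h + n)) * y.coeff (σ * g₀ ^ i)) h8 0 (by positivity)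
  refine ⟨z, ?_⟩
  simpa using hz

end Pool.Agent.RMX
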